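import Pool.Agent.H23.Ori3
import Pool.Agent.H11.CL3
import Pool.Agent.H11.GDefs

set_option autoImplicit false

namespace Pool.Agent.Results.MP_38a5c8_lc.Hard
open Pool.Agent.H11.PT Pool.Agent.H23.Ori

/-- a strong clique: a clique meeting every maximal stable set -/
def Strong {V : Type} (G : SimpleGraph V) (C : Set V) : Prop :=
  G.IsClique C ∧ ∀ S, Maximal G.IsIndepSet S → (C ∩ S).Nonempty

/-- every edge of the graph lies in a strong clique -/
def EdgeStrong (y : ℕ × List (ℕ × ℕ)) : Prop :=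
  ∀ u v, (gr y.1 y.2).Adj u v → ∃ C, Strong (gr y.1 y.2) C ∧ u ∈ C ∧ v ∈ C

section
variable {V N : Type} {G : SimpleGraph V} {nd : V → N} {W : N → N → Prop} {lb : V → N → Bool}
  (hG : ∀ u v, G.Adj u v ↔ nd u ≠ nd v ∧ (W (nd u) (nd v) → lb u (nd v) = lb v (nd u)))
include hG

theorem cover {K : Set V} (h : Strong G K)
    (e : ∀ u v, nd u ≠ nd v → ∃ w, nd w = nd u ∧ G.Adj w v) (u : V) : ∃ k ∈ K, nd k = nd u := by
  obtain ⟨k, a, b⟩ := h.2 {w | nd w = nd u} ⟨fun x a y b _ c => ((hG _ _).1 c).1 (a.trans b.symm),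
    fun T t s v a => by
      by_contra c
      obtain ⟨w, d, f⟩ := e u v (Ne.symm c)
      exact t (s d) a f.ne f⟩
  exact ⟨k, a, b⟩

theorem strong (tri : ∀ n m k, W n m → W m k → ¬ W n k) {K : Set V}
    (h : G.IsClique K) (e : ∀ u, ∃ k ∈ K, nd k = nd u) (u : V) : Strong G K := by
  refine ⟨h, fun S s => ?_⟩
  by_contra c
  have nb : ∀ u, ∃ k ∈ K, nd k = nd u ∧ ∃ a ∈ S, G.Adj k a := fun u => by
    obtain ⟨k, a, b⟩ := e u
    refine ⟨k, a, b, ?_⟩
    by_contra! d
    exact c ⟨k, a, s.2 (y := insert k S) (Set.pairwise_insert.2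
      ⟨s.1, fun x f _ => ⟨d x f, fun g => d x f g.symm⟩⟩) (Set.subset_insert _ _) (Set.mem_insert _ _)⟩
  have na : ∀ a ∈ S, ∀ b ∈ S, nd a ≠ nd b → W (nd a) (nd b) ∧ lb a (nd b) ≠ lb b (nd a) :=
    fun a x b y d => by
      have : ¬ G.Adj a b := s.1 x y (fun f => d (f ▸ rfl))
      rw [hG] at this
      tauto
  obtain ⟨-, -, -, a, ha, -⟩ := nb u
  obtain ⟨k, hk, e1, b, hb, x⟩ := nb a
  obtain ⟨l, hl, e2, d, hd, y⟩ := nb b
  rw [hG, e1] at x
  rw [hG, e2] at y
  have w1 := na a ha b hb x.1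
  have w2 := na b hb d hd y.1
  have e3 : nd a = nd d := by
    by_contra f
    exact tri _ _ _ w1.1 w2.1 (na a ha d hd f).1
  have z := (hG _ _).1 (h hk hl fun f => x.1 (e1 ▸ e2 ▸ f ▸ rfl))
  rw [e1, e2] at z
  exact w2.2 (by rw [← y.2 w2.1, ← e3, ← z.2 w1.1, x.2 w1.1])

open Classical in
theorem ext {a b : V} (h : G.Adj a b) (val : N → N → Bool)
    (sy : ∀ n m, W n m → W m n ∧ val n m = val m n)
    (e : ∀ u, nd u ≠ nd a → nd u ≠ nd b → ∃ w, nd w = nd u ∧ ∀ m, W (nd u) m → lb w m =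
      if m = nd a then lb a (nd u) else if m = nd b then lb b (nd u) else val (nd u) m) :
    ∃ K, G.IsClique K ∧ (∀ u, ∃ k ∈ K, nd k = nd u) ∧ a ∈ K ∧ b ∈ K := by
  have e' : ∀ n, (∃ u, nd u = n) → n ≠ nd a → n ≠ nd b → ∃ w, nd w = n ∧ ∀ m, W n m → lb w m =
      if m = nd a then lb a n else if m = nd b then lb b n else val n m := by
    rintro _ ⟨u, rfl⟩
    exact e u
  choose s s1 s2 using e'
  have ab := ((hG _ _).1 h).1
  have p : ∀ n x y z, G.Adj (s n x y z) a := fun n x y z => by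
    rw [hG, s1]
    exact ⟨y, fun w => by rw [s2 _ _ _ _ _ w, if_pos rfl]⟩
  have q : ∀ n x y z, G.Adj (s n x y z) b := fun n x y z => by
    rw [hG, s1]
    exact ⟨z, fun w => by rw [s2 _ _ _ _ _ w, if_neg ab.symm, if_pos rfl]⟩
  refine ⟨{v | v = a ∨ v = b ∨ ∃ n x y z, v = s n x y z}, ?_, fun u => ?_, .inl rfl, .inr (.inl rfl)⟩
  · rintro _ (rfl | rfl | ⟨n, x, y, z, rfl⟩) _ (rfl | rfl | ⟨n', x', y', z', rfl⟩) d
    · exact absurd rfl d
    · exact h
    · exact (p ..).symm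
    · exact h.symm
    · exact absurd rfl d
    · exact (q ..).symm
    · exact p ..
    · exact q ..
    · rw [hG, s1, s1]
      refine ⟨fun f => d (by subst f; rfl), fun w => ?_⟩
      rw [s2 _ _ _ _ _ w, s2 _ _ _ _ _ (sy _ _ w).1, if_neg y', if_neg z', if_neg y, if_neg z,
        (sy _ _ w).2]
  · by_cases x : nd u = nd a
    · exact ⟨a, .inl rfl, x.symm⟩
    by_cases y : nd u = nd b
    · exact ⟨b, .inr (.inl rfl), y.symm⟩
    exact ⟨_, .inr (.inr ⟨_, ⟨u, rfl⟩, x, y, rfl⟩), s1 ..⟩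

end

open List

abbrev Nd := List Lit × ℕ
abbrev At := Nd × Bool × List Nd
abbrev F := List (Lit × Lit × Lit)

def TT : List (ℕ × ℕ) := range 3 ×ˢ range 5
def wire (L : List Lit) (q : ℕ × ℕ) : Nd := ([((L.getD q.1 (0, false)).1, false)], q.2)
def W0 (n m : Nd) : Prop := 4 < m.2 ∧ n ∈ TT.map (wire m.1)
def W (n m : Nd) : Prop := W0 n m ∨ W0 m n
noncomputable def lb (a : At) (m : Nd) : Bool := a.2.1 ^^ dc (m ∈ a.2.2)
def Maj (g : ℕ → Prop) : Prop := ∃ x ∈ range 36, ∃ y ∈ range 36, ∀ j ∈ range 5, j = x ∨ j = y ∨ g j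
def acc (L : List Lit) (v : List Nd) : Prop :=
  ∃ k ∈ range 3, Maj fun j => dc (wire L (k, j) ∈ v) = (L.getD k (0, false)).2
def CN (φ : F) : List Nd := φ.flatMap fun c => (range 31).map fun i => ([c.1, c.2.1, c.2.2], i + 5)
def VN (φ : F) : List Nd := (CN φ).flatMap fun m => TT.map (wire m.1)
noncomputable def AT (φ : F) : List At :=
  ((VN φ).flatMap fun z => [false, true].flatMap fun b =>
    ((VN φ ++ CN φ) ×ˢ (VN φ ++ CN φ)).map fun e => (z, b, [e.1, e.2])) ++
  (CN φ).flatMap fun m => ((TT.sublists.map fun t => t.map (wire m.1)).filter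
    fun v => dc (acc m.1 v)).map fun v => (m, false, v)
noncomputable def av (φ : F) (w : ℕ) : At := (AT φ).getD w (([], 0), false, [])
def R (a b : At) : Prop := ¬ a.1 = b.1 ∧ (¬ W a.1 b.1 ∨ lb a b.1 = lb b a.1)
noncomputable def red (φ : F) : ℕ × List (ℕ × ℕ) := ((AT φ).length,
  (range (AT φ).length ×ˢ range (AT φ).length).filter fun p => dc (R (av φ p.1) (av φ p.2)))

theorem red_pt : PT red := by
  have h : PT AT := by unfold AT VN CN acc Maj wire; fun_prop
  have h2 : PT fun y : At × At => dc (R y.1 y.2) := by unfold R W W0 lb wire; fun_prop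
  have h3 : PT fun y : F × ℕ => av y.1 y.2 := by unfold av; fun_prop
  unfold red
  exact PT.pair (by fun_prop) (PT.filter (by fun_prop) (h2.comp (PT.pair
    (h3.comp (g := fun q : F × ℕ × ℕ => (q.1, q.2.1)) (by fun_prop))
    (h3.comp (g := fun q : F × ℕ × ℕ => (q.1, q.2.2)) (by fun_prop)))))

theorem W0_lt {n m : Nd} (h : W0 n m) : n.2 < 5 ∧ 4 < m.2 := by
  obtain ⟨a, b⟩ := h
  obtain ⟨q, c, rfl⟩ := mem_map.1 b
  exact ⟨mem_range.1 (mem_product.1 c).2, a⟩

variable {φ : F}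

theorem hG (u v : Fin (red φ).1) : (gr _ (red φ).2).Adj u v ↔ (av φ u).1 ≠ (av φ v).1 ∧
    (W (av φ u).1 (av φ v).1 → lb (av φ u) (av φ v).1 = lb (av φ v) (av φ u).1) := by
  have hu : u.val < (AT φ).length := u.2
  have hv : v.val < (AT φ).length := v.2
  have : u = v → (av φ u).1 = (av φ v).1 := fun e => e ▸ rfl
  simp only [gr, SimpleGraph.fromRel_adj, red, mem_filter, mem_product, mem_range, dc_iff, hu, hv,
    true_and, R, W, @eq_comm _ (av φ v).1, @eq_comm _ (lb (av φ v) _)]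
  tauto

theorem mem_av {a : At} (h : a ∈ AT φ) : ∃ w : Fin (red φ).1, av φ w = a := by
  obtain ⟨i, b, rfl⟩ := getElem_of_mem h
  exact ⟨⟨i, b⟩, getD_eq_getElem _ _ b⟩

theorem CN_lt {m : Nd} (h : m ∈ CN φ) : 4 < m.2 ∧ m.2 < 36 ∧
    ∃ c ∈ φ, m.1 = [c.1, c.2.1, c.2.2] := by
  simp only [CN, mem_flatMap, mem_map, mem_range] at h
  obtain ⟨c, a, i, b, rfl⟩ := h
  exact ⟨by simp, by simp; omega, c, a, rfl⟩

theorem VN_lt {m : Nd} (h : m ∈ VN φ) : m.2 < 5 := by
  obtain ⟨c, a, b⟩ := mem_flatMap.1 h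
  exact (W0_lt ⟨(CN_lt a).1, b⟩).1

theorem av_cases (w : Fin (red φ).1) : ((av φ w).1 ∈ VN φ ∧ (av φ w).2.2.length = 2) ∨
    ((av φ w).1 ∈ CN φ ∧ (av φ w).2.1 = false ∧ acc (av φ w).1.1 (av φ w).2.2) := by
  have : av φ w ∈ AT φ := by
    rw [av, getD_eq_getElem _ _ w.2]; exact getElem_mem _
  generalize av φ w = a at *
  simp only [AT, mem_append, mem_flatMap, mem_map, mem_filter, dc_iff] at this
  obtain ⟨z, a, b, -, e, -, rfl⟩ | ⟨m, a, v, ⟨-, b⟩, rfl⟩ := this
  exacts [.inl ⟨a, rfl⟩, .inr ⟨a, rfl, b⟩]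

theorem av_mem (w : Fin (red φ).1) : (av φ w).1 ∈ VN φ ++ CN φ ∧ (av φ w).1.2 ∈ range 36 := by
  rw [mem_append, mem_range]
  obtain a | a := av_cases w
  exacts [⟨.inl a.1, (VN_lt a.1).trans (by omega)⟩, ⟨.inr a.1, (CN_lt a.1).2.1⟩]

theorem mkV {z e e' : Nd} (h : z ∈ VN φ) (a : e ∈ VN φ ++ CN φ) (a' : e' ∈ VN φ ++ CN φ)
    (b : Bool) : ∃ w : Fin (red φ).1, av φ w = (z, b, [e, e']) :=
  mem_av (mem_append_left _ (mem_flatMap.2 ⟨z, h, mem_flatMap.2 ⟨b, by cases b <;> simp,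
    mem_map.2 ⟨(e, e'), mem_product.2 ⟨a, a'⟩, rfl⟩⟩⟩))

theorem mkC {m : Nd} (h : m ∈ CN φ) (f : Nd → Bool) (a : ∃ k ∈ range 3, Maj fun j =>
    f (wire m.1 (k, j)) = (m.1.getD k (0, false)).2) :
    ∃ w : Fin (red φ).1, (av φ w).1 = m ∧ ∀ z, W m z → lb (av φ w) z = f z := by
  have e : ∀ z ∈ TT.map (wire m.1), dc (z ∈ (TT.map (wire m.1)).filter f) = f z := fun z b =>
    (dc_eq (by rw [mem_filter]; tauto)).symm
  obtain ⟨w, b⟩ := mem_av (φ := φ) (a := (m, false, (TT.map (wire m.1)).filter f))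
    (mem_append_right _ (mem_flatMap.2 ⟨m, h, mem_map.2 ⟨_, mem_filter.2 ⟨mem_map.2
      ⟨TT.filter (f ∘ wire m.1), mem_sublists.2 filter_sublist, filter_map.symm⟩, by
        obtain ⟨k, a, x, b, y, c, d⟩ := a
        refine dc_iff.2 ⟨k, a, x, b, y, c, fun j g => ?_⟩
        simp only [e _ (mem_map_of_mem (mem_product.2 ⟨a, g⟩ : (k, j) ∈ TT))]
        exact d j g⟩, rfl⟩⟩))
  refine ⟨w, by rw [b], fun z c => ?_⟩
  obtain c | c := c
  · have := (W0_lt c).1
    have := (CN_lt h).1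
    omega
  · rw [b, lb, e _ c.2]; simp

open Classical in
theorem complete (h : SAT3 φ) : EdgeStrong (red φ) := fun a b e => by
  obtain ⟨σ, h⟩ := h
  obtain ⟨K, k1, k2, k3⟩ := ext hG e (fun n m => σ ((if n.2 < 5 then n else m).1.headD (0, false)).1)
    (fun n m w => ⟨w.symm, by
      obtain w | w := w <;> have := W0_lt w <;> split_ifs <;> first | rfl | omega⟩) fun u x y => by
      have ab := ((hG _ _).1 e).1
      obtain ⟨c, -⟩ | ⟨c, -⟩ := av_cases u
      · have p := mem_append_left (CN φ) c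
        have q := VN_lt c
        have p1 := (av_mem a).1
        have p2 := (av_mem b).1
        generalize (av φ u).1 = n at *
        simp only [if_pos q]
        generalize σ _ = s
        obtain ⟨w, g⟩ := mkV c (e := if lb (av φ a) n = s then n else (av φ a).1)
          (e' := if lb (av φ b) n = s then n else (av φ b).1) (by split_ifs <;> assumption)
          (by split_ifs <;> assumption) s
        refine ⟨w, by rw [g], fun m i => ?_⟩
        have : m ≠ n := by
          rintro rfl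
          obtain i | i := i <;> have := W0_lt i <;> omega
        rw [g, lb]
        generalize lb (av φ a) n = r, lb (av φ b) n = t, (av φ a).1 = A, (av φ b).1 = B at *
        clear * - this ab
        by_cases u : m = A
        · subst u
          cases r <;> cases t <;> cases s <;> simp [dc, this, ab]
        · by_cases v : m = B
          · subst v
            cases r <;> cases t <;> cases s <;> simp [dc, this, u]
          · cases r <;> cases t <;> cases s <;> simp [dc, this, u, v]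
      · obtain ⟨p, q, d, i, j⟩ := CN_lt c
        refine mkC c _ ?_
        have : ∃ k ∈ range 3, σ ((av φ u).1.1.getD k (0, false)).1 =
            ((av φ u).1.1.getD k (0, false)).2 := by
          rw [j]
          obtain g | g | g := h d i
          exacts [⟨0, by simp, g⟩, ⟨1, by simp, g⟩, ⟨2, by simp, g⟩]
        obtain ⟨k, g1, g2⟩ := this
        refine ⟨k, g1, _, (av_mem a).2, _, (av_mem b).2, fun l _ => ?_⟩
        by_contra! g
        refine g.2.2 ?_
        rw [if_neg fun f => g.1 (congrArg Prod.snd f), if_neg fun f => g.2.1 (congrArg Prod.snd f),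
          if_neg (by omega)]
        exact g2
  exact ⟨K, ⟨k1, (strong hG (fun n m k x y z => by
    obtain x | x := x <;> obtain y | y := y <;> obtain z | z := z <;> have := W0_lt x <;>
      have := W0_lt y <;> have := W0_lt z <;> omega) k1 k2 a).2⟩, k3⟩

theorem sound (h : EdgeStrong (red φ)) : SAT3 φ := by
  classical
  have vn : ∀ c ∈ φ, ∀ q ∈ TT, wire [c.1, c.2.1, c.2.2] q ∈ VN φ := fun c a q b =>
    mem_flatMap.2 ⟨([c.1, c.2.1, c.2.2], 0 + 5), mem_flatMap.2 ⟨c, a, mem_map.2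
      ⟨0, by simp, rfl⟩⟩, mem_map_of_mem b⟩
  have mk : ∀ z ∈ VN φ, ∀ b, ∃ w : Fin (red φ).1, av φ w = (z, b, [z, z]) := fun z a b =>
    mkV a (mem_append_left _ a) (mem_append_left _ a) b
  by_cases e : φ = []
  · exact ⟨fun _ => true, by simp [e]⟩
  obtain ⟨c0, e⟩ := exists_mem_of_ne_nil _ e
  obtain ⟨u0, a0⟩ := mk _ (vn c0 e (0, 0) (by decide)) false
  obtain ⟨u1, a1⟩ := mk _ (vn c0 e (0, 1) (by decide)) false
  obtain ⟨K, k, -⟩ := h u0 u1 ((hG _ _).2 (by
    rw [a0, a1]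
    exact ⟨fun f => by simpa [wire] using congrArg Prod.snd f, fun w => by
      obtain w | w := w <;> exact absurd w.1 (by simp [wire])⟩))
  have cv := cover hG k fun u v d => by
    obtain ⟨c, -⟩ | ⟨c, -⟩ := av_cases u
    · obtain ⟨w, g⟩ := mk _ c (lb (av φ v) (av φ u).1)
      refine ⟨w, by rw [g], (hG _ _).2 ?_⟩
      rw [g]
      exact ⟨d, fun _ => by simp [lb, dc, d.symm]⟩
    · obtain ⟨w, g1, g2⟩ := mkC c (fun z => if z = (av φ v).1 then lb (av φ v) (av φ u).1 else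
        ((av φ u).1.1.getD 0 (0, false)).2) ⟨0, by simp, _, (av_mem v).2, _, (av_mem v).2,
          fun l _ => by
            by_contra! g
            exact g.2.2 (if_neg fun f => g.1 (congrArg Prod.snd f))⟩
      refine ⟨w, g1, (hG _ _).2 ?_⟩
      rw [g1]
      exact ⟨d, fun i => by rw [g2 _ i, if_pos rfl]⟩
  refine ⟨fun p => dc (Maj fun j => ∃ w ∈ K, (av φ w).1 = ([(p, false)], j) ∧ (av φ w).2.1 = true),
    fun c a => ?_⟩
  have s : ∀ q, ∃ w : Fin (red φ).1, q ∈ TT → w ∈ K ∧ (av φ w).1 = wire [c.1, c.2.1, c.2.2] q :=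
    fun q => by
      by_cases b : q ∈ TT
      · obtain ⟨u, d⟩ := mk _ (vn c a q b) false
        obtain ⟨w, f, g⟩ := cv u
        exact ⟨w, fun _ => ⟨f, by rw [g, d]⟩⟩
      · exact ⟨u0, fun d => absurd d b⟩
  choose s hs using s
  obtain ⟨i, i1, i2⟩ := Finset.exists_mem_notMem_of_card_lt_card (t := Finset.range 31)
    (s := (TT.flatMap fun q => (av φ (s q)).2.2.map fun m => m.2 - 5).toFinset) (by
      refine (toFinset_card_le _).trans_lt ?_
      rw [length_flatMap, map_congr_left (g := fun _ => 2) fun q b => by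
        obtain d | d := av_cases (s q)
        · simp [d.2]
        · have := (CN_lt d.1).1
          have := VN_lt (vn c a q b)
          rw [(hs q b).2] at *
          omega]
      decide)
  have cn : ([c.1, c.2.1, c.2.2], i + 5) ∈ CN φ :=
    mem_flatMap.2 ⟨c, a, mem_map.2 ⟨i, by simpa using i1, rfl⟩⟩
  obtain ⟨u, d, -⟩ := mkC cn (fun _ => c.1.2) ⟨0, by simp, 0, by simp, 0, by simp, by simp⟩
  obtain ⟨w, w1, w2⟩ := cv u
  rw [d] at w2
  obtain ⟨f, -⟩ | ⟨-, f, r, r1, x, x1, y, y1, g⟩ := av_cases w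
  · have := VN_lt f
    rw [w2] at this
    omega
  rw [w2] at g
  have key : ∀ j ∈ range 5, j = x ∨ j = y ∨
      (av φ (s (r, j))).2.1 = ([c.1, c.2.1, c.2.2].getD r (0, false)).2 := fun j b => by
    have t : (r, j) ∈ TT := mem_product.2 ⟨r1, b⟩
    have n : W0 (av φ (s (r, j))).1 (av φ w).1 := by
      rw [(hs _ t).2, w2]
      exact ⟨by simp, mem_map_of_mem t⟩
    have := ((hG _ _).1 (k.1 (hs _ t).1 w1 fun f => by
      have := W0_lt n
      rw [f] at this
      omega)).2 (.inl n)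
    rw [lb, lb, f, (hs _ t).2, w2, ← dc_eq (b := false) (by
      simp only [Bool.false_eq_true, false_iff]
      exact fun f => i2 (mem_toFinset.2 (mem_flatMap.2 ⟨_, t, mem_map.2 ⟨_, f, rfl⟩⟩)))] at this
    refine (g j b).imp_right (Or.imp_right fun v => ?_)
    rw [← v]
    simpa using this
  have fin : dc (Maj fun j => ∃ w ∈ K, (av φ w).1 = ([(([c.1, c.2.1, c.2.2].getD r (0, false)).1,
      false)], j) ∧ (av φ w).2.1 = true) = ([c.1, c.2.1, c.2.2].getD r (0, false)).2 := by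
    generalize [c.1, c.2.1, c.2.2] = L at *
    have t : ∀ j ∈ range 5, (r, j) ∈ TT := fun j b => mem_product.2 ⟨r1, b⟩
    cases v : (L.getD r (0, false)).2
    · refine (dc_eq ⟨by simp, ?_⟩).symm
      rintro ⟨x', -, y', -, z⟩
      obtain ⟨j, b, o⟩ : ∃ j ∈ range 5, j ≠ x ∧ j ≠ y ∧ j ≠ x' ∧ j ≠ y' := by
        by_contra! o
        have := o 0 (by simp)
        have := o 1 (by simp)
        have := o 2 (by simp)
        have := o 3 (by simp)
        have := o 4 (by simp)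
        omega
      obtain ⟨w', z1, z2, z3⟩ := ((z j b).resolve_left o.2.2.1).resolve_left o.2.2.2
      have := ((key j b).resolve_left o.1).resolve_left o.2.1
      obtain rfl : w' = s (r, j) := by
        by_contra f
        exact ((hG _ _).1 (k.1 z1 (hs _ (t j b)).1 f)).1 (z2.trans (hs _ (t j b)).2.symm)
      rw [z3, v] at this
      exact this.symm
    · exact dc_iff.2 ⟨x, x1, y, y1, fun j b => (key j b).imp_right (Or.imp_right fun o =>
        ⟨_, (hs _ (t j b)).1, (hs _ (t j b)).2, o.trans v⟩)⟩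
  have := mem_range.1 r1
  interval_cases r
  exacts [.inl fin, .inr (.inl fin), .inr (.inr fin)]

theorem result : NPHard EdgeStrong :=
  (hard_SAT3.red red red_pt fun _ => ⟨complete, sound⟩).npHard

end Pool.Agent.Results.MP_38a5c8_lc.Hard
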